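import Pool.Agent.N928.FG.Stm

/-! The step distribution on `ℤ⁶`. -/

set_option autoImplicit false

namespace Pool.Agent.N707.FGMU

open Pool.Agent.N928.FG

theorem cd_inv (a : A) (i : Fin 6) : cd a⁻¹ i = - cd a i := rfl

theorem cd_mul (a b : A) (i : Fin 6) : cd (a * b) i = cd a i + cd b i := rfl

theorem cd_one (i : Fin 6) : cd 1 i = 0 := rfl

theorem w_neg (β : ℝ) (k : ℤ) : w β (-k) = w β k := by
  unfold w
  by_cases h : k = 0
  · subst h; simp
  · rw [if_neg h, if_neg (by omega)]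
    by_cases h1 : k = 1 ∨ k = -1
    · rw [if_pos h1, if_pos (by omega)]
    · rw [if_neg h1, if_neg (by omega)]

theorem w_nonneg {β : ℝ} (h0 : 0 < β) (h1 : β ≤ 1 / 2) (k : ℤ) : 0 ≤ w β k := by
  unfold w
  split_ifs <;> linarith

theorem bet_pos {β : ℝ} (h0 : 0 < β) (i : Fin 6) : 0 < bet β i := by
  unfold bet
  split_ifs
  · norm_num
  · exact h0

theorem bet_le {β : ℝ} (h1 : β ≤ 1 / 2) (i : Fin 6) : bet β i ≤ 1 / 2 := by
  unfold bet
  split_ifs
  · exact le_rfl
  · exact h1

theorem w_sum (β : ℝ) (g : ℤ → ℝ) : ∑ k ∈ Finset.Icc (-1 : ℤ) 1, w β k * g k = (1 - β) * g 0 + β / 2 * (g (-1) + g 1) := by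
  have h : Finset.Icc (-1 : ℤ) 1 = {-1, 0, 1} := by decide
  rw [h, Finset.sum_insert (by decide), Finset.sum_insert (by decide), Finset.sum_singleton]
  unfold w
  norm_num
  ring

theorem prod_form (β : ℝ) (f : Fin 6 → ℤ → ℝ) :
    (mu β).sum (fun a t => t * ∏ i, f i (cd a i)) =
      ∏ i, ((1 - bet β i) * f i 0 + bet β i / 2 * (f i (-1) + f i 1)) := by
  have h0 := Finsupp.sum_of_support_subset (mu β) (s := cube) Finsupp.support_onFinset_subset
    (fun a t => t * ∏ i, f i (cd a i)) (fun a _ => zero_mul _)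
  rw [h0]
  unfold cube
  rw [Finset.sum_map]
  have h1 : ∀ x : Fin 6 → ℤ, (mu β) (Multiplicative.ofAdd x) * ∏ i, f i (cd (Multiplicative.ofAdd x) i) =
      ∏ i, (w (bet β i) (x i) * f i (x i)) := by
    intro x
    rw [Finset.prod_mul_distrib]
    rfl
  have h2 : ∀ x : Fin 6 → ℤ, (mu β) ((⟨Multiplicative.ofAdd, Multiplicative.ofAdd.injective⟩ : (Fin 6 → ℤ) ↪ A) x) *
      ∏ i, f i (cd ((⟨Multiplicative.ofAdd, Multiplicative.ofAdd.injective⟩ : (Fin 6 → ℤ) ↪ A) x) i) =
      ∏ i, (w (bet β i) (x i) * f i (x i)) := h1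
  rw [Finset.sum_congr rfl (fun x _ => h2 x), ← Finset.prod_univ_sum (fun _ : Fin 6 => Finset.Icc (-1 : ℤ) 1)
    (fun i k => w (bet β i) k * f i k)]
  exact Finset.prod_congr rfl fun i _ => w_sum _ _

theorem t_MU : S_S1 → S_MU := by
  intro hS β h0 h1
  have hm : ∀ a, mu β a = ∏ i, w (bet β i) (cd a i) := fun a => rfl
  refine ⟨fun a => ?_, ?_, fun a => ?_, fun a => ?_, fun n a => ?_, fun n a => ⟨?_, ?_, ?_⟩⟩
  · rw [hm]
    exact Finset.prod_nonneg fun i _ => w_nonneg (bet_pos h0 i) (bet_le h1 i) _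
  · have h2 := prod_form β (fun _ _ => 1)
    simp only [Finset.prod_const_one, mul_one] at h2
    rw [h2]
    apply Finset.prod_eq_one
    intro i _
    ring
  · rw [hm, hm]
    exact Finset.prod_congr rfl fun i _ => by rw [cd_inv, w_neg]
  · unfold m
    by_cases ha : a = 1
    · subst ha
      rw [if_pos rfl]
      exact Finset.prod_eq_one fun i _ => by rw [cd_one]; simp [s]
    · rw [if_neg ha]
      obtain ⟨i, hi⟩ : ∃ i, cd a i ≠ 0 := by
        by_contra hcon
        push Not at hcon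
        apply ha
        have : Multiplicative.toAdd a = 0 := funext hcon
        exact this
      apply Finset.prod_eq_zero (Finset.mem_univ i)
      simp [s, hi]
  · have h2 := prod_form β (fun i k => s (bet β i) n (cd a i - k))
    have h3 : ∀ c : A, m β n (c⁻¹ * a) = ∏ i, s (bet β i) n (cd a i - cd c i) := by
      intro c
      unfold m
      apply Finset.prod_congr rfl
      intro i _
      rw [cd_mul, cd_inv]
      congr 1
      ring
    simp only [h3]
    rw [h2]
    unfold m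
    apply Finset.prod_congr rfl
    intro i _
    rw [s, sub_zero, sub_neg_eq_add]
    ring
  · exact Finset.prod_nonneg fun i _ => (hS _ (bet_pos h0 i) (bet_le h1 i) n _).1
  · exact Finset.prod_le_prod (fun i _ => (hS _ (bet_pos h0 i) (bet_le h1 i) n _).1)
      fun i _ => (hS _ (bet_pos h0 i) (bet_le h1 i) n _).2.2.1
  · exact Finset.prod_le_one (fun i _ => (hS _ (bet_pos h0 i) (bet_le h1 i) n _).1)
      fun i _ => (hS _ (bet_pos h0 i) (bet_le h1 i) n 0).2.2.2

end Pool.Agent.N707.FGMU
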